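import Pool.Agent.DNP18.Main
import Pool.Agent.NP15.ConT
import Pool.Agent.NP15.FinD

/-!
# `D = NP`

The class `D` consists of the relations between natural numbers which have exponentially bounded
Diophantine representations. We show that `D = NP`.
-/

namespace Pool.Agent.Results.MP_e5b0db_lc.DEqualsNP

open Turing

/-- `|a|`, the number of binary digits of `a`, with `|0| = 1`. -/
def len (a : ℕ) : ℕ := Nat.log 2 a + 1

/-- The class `D` (for relations with `n` arguments): there are a polynomial `p` with integer
coefficients in `n + m` variables and a `k` such that `R a` holds iff `p (a, x) = 0` for some tuple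
`x` of natural numbers whose sum is at most `2 ^ (|a₁ + ⋯ + aₙ| ^ k)`. -/
def D (n : ℕ) : Set (Set (Fin n → ℕ)) :=
  {R | ∃ (m k : ℕ) (p : MvPolynomial (Fin n ⊕ Fin m) ℤ), ∀ a : Fin n → ℕ, a ∈ R ↔
    ∃ x : Fin m → ℕ, MvPolynomial.eval (fun i => ((Sum.elim a x i : ℕ) : ℤ)) p = 0 ∧
      ∑ j, x j ≤ 2 ^ len (∑ i, a i) ^ k}

/-- The binary digits of `a`, the most significant one first; `0` is written `0`. -/
def digits (a : ℕ) : List Bool := (List.range (len a)).reverse.map a.testBit

/-- The input word of a tuple: its entries are written in binary, each followed by the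
separator `none`. -/
def word {n : ℕ} (a : Fin n → ℕ) : List (Option Bool) :=
  (List.ofFn fun i => (digits (a i)).map some ++ [none]).flatten

variable {Γ Λ : Type} [Inhabited Γ] [Inhabited Λ]

/-- A nondeterministic machine with tape alphabet `Γ` (the blank is `default`) and states `Λ` is given
by two transition tables `M false` and `M true`; in each step one of the two is used. `c'` can be
reached from the configuration `c` in exactly `t` steps: -/
def Reaches (M : Bool → TM0.Machine Γ Λ) : ℕ → TM0.Cfg Γ Λ → TM0.Cfg Γ Λ → Prop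
  | 0, c, c' => c = c'
  | t + 1, c, c' => ∃ c'', Reaches M t c c'' ∧ ∃ b, TM0.step (M b) c'' = some c'

/-- No step is possible. -/
def Halted (M : Bool → TM0.Machine Γ Λ) (c : TM0.Cfg Γ Λ) : Prop :=
  ∀ b, TM0.step (M b) c = none

/-- The class `NP`: there is a nondeterministic Turing machine (finite tape alphabet, finitely many
states, the three input symbols being represented by three different tape symbols other than the
blank) such that on every input `a` each computation has at most `p (length of the input)` steps,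
and `R a` holds iff some computation halts in an accepting state. -/
def NP (n : ℕ) : Set (Set (Fin n → ℕ)) :=
  {R | ∃ (Γ Λ : Type) (_ : Inhabited Γ) (_ : Inhabited Λ) (_ : Finite Γ) (_ : Finite Λ)
    (M : Bool → TM0.Machine Γ Λ) (enc : Option Bool → Γ) (acc : Set Λ) (p : Polynomial ℕ),
    Function.Injective enc ∧ (∀ s, enc s ≠ default) ∧ ∀ a : Fin n → ℕ,
      (∀ t c, Reaches M t (TM0.init ((word a).map enc)) c → t ≤ p.eval (word a).length) ∧
      (a ∈ R ↔ ∃ t c, Reaches M t (TM0.init ((word a).map enc)) c ∧ Halted M c ∧ c.q ∈ acc)}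

/-! ## Proof -/

theorem reaches_iff (M : Bool → TM0.Machine Γ Λ) (t : ℕ) (c c' : TM0.Cfg Γ Λ) :
    Reaches M t c c' ↔ DPoly.Reaches M t c c' := by
  induction t generalizing c' with
  | zero => exact Iff.rfl
  | succ t ih =>
    simp only [Reaches, DPoly.Reaches, ih]

theorem halted_iff (M : Bool → TM0.Machine Γ Λ) (c : TM0.Cfg Γ Λ) :
    Halted M c ↔ DPoly.Halted M c := Iff.rfl

/-- Every relation in `NP` is in `D`. -/
theorem np_sub {n : ℕ} (hn : 1 ≤ n) : NP n ⊆ D n := by
  rintro R ⟨Γ, Λ, _, _, _, _, M, enc, acc, p, -, -, h⟩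
  exact DNP18.exists_rep_of_DD (DNP18.np_dd hn M enc (fun s => s ∈ acc) p R (fun a => by
    have h1 := h a
    simp only [reaches_iff] at h1
    exact h1))

/-- Every relation in `D` is in `NP`. -/
theorem sub_np {n : ℕ} (hn : 1 ≤ n) : D n ⊆ NP n := by
  rintro R ⟨m, k, p, h⟩
  obtain ⟨Γ, Λ, i1, i2, i3, i4, M, enc, acc, q, h1, h2, h3⟩ :=
    NP15.inNP_of_CS hn R (NP15.CS_of_D R m k p h)
  refine ⟨Γ, Λ, i1, i2, i3, i4, M, enc, acc, q, h1, h2, fun a => ?_⟩
  have h4 := h3 a
  simp only [← reaches_iff] at h4
  exact h4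

/-- `D = NP`. -/
theorem result (n : ℕ) (hn : 1 ≤ n) : D n = NP n :=
  Set.Subset.antisymm (sub_np hn) (np_sub hn)

end Pool.Agent.Results.MP_e5b0db_lc.DEqualsNP
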